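import Pool.Agent.P8H96.SP.Stm

/-! Project SP of helper96, package NRM (helper4): relative discriminants. -/

set_option autoImplicit false

open Finset Polynomial Module Pool.Agent.P8H96.SP

namespace Pool.Agent.P8H4.SP

section
variable {k M : Type} [Field k] [NumberField k] [Field M] [NumberField M] [Algebra k M]

theorem mem_cl {σ : k →ₐ[ℚ] ℂ} {τ : M →ₐ[ℚ] ℂ} :
    τ ∈ cl (M := M) σ ↔ ∀ x : k, τ (algebraMap k M x) = σ x := by
  classical
  unfold cl
  simp only [Finset.mem_filter, Finset.mem_univ, true_and]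

/-- the value of a polynomial -/
theorem map_aeval {σ : k →ₐ[ℚ] ℂ} {τ : M →ₐ[ℚ] ℂ} (hτ : τ ∈ cl (M := M) σ) (β : M) (p : k[X]) :
    τ (aeval β p) = (p.map (σ : k →+* ℂ)).eval (τ β) := by
  rw [aeval_def, Polynomial.eval_map]
  have h1 := Polynomial.hom_eval₂ p (algebraMap k M) (τ : M →+* ℂ) β
  have h2 : (τ : M →+* ℂ).comp (algebraMap k M) = (σ : k →+* ℂ) := by
    ext x
    exact mem_cl.1 hτ x
  rw [h2] at h1
  exact h1

theorem exists_poly {β : M} (hk : IsIntegral k β) (htop : IntermediateField.adjoin k {β} = ⊤)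
    (x : M) : ∃ p : k[X], aeval β p = x := by
  have h1 := IntermediateField.adjoin_simple_toSubalgebra_of_isAlgebraic hk.isAlgebraic
  rw [htop] at h1
  have h2 : x ∈ Algebra.adjoin k {β} := by
    rw [← h1]
    exact Algebra.mem_top
  rw [Algebra.adjoin_singleton_eq_range_aeval] at h2
  exact h2

theorem inj {β : M} (hk : IsIntegral k β) (htop : IntermediateField.adjoin k {β} = ⊤)
    {σ : k →ₐ[ℚ] ℂ} {τ τ' : M →ₐ[ℚ] ℂ} (hτ : τ ∈ cl (M := M) σ) (hτ' : τ' ∈ cl (M := M) σ)
    (h : τ β = τ' β) : τ = τ' := by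
  ext x
  obtain ⟨p, rfl⟩ := exists_poly hk htop x
  rw [map_aeval hτ, map_aeval hτ', h]

/-- the derivative of a product of linear factors at a zero -/
theorem eval_derivative_prod {ι : Type} [DecidableEq ι] (s : Finset ι) (a : ι → ℂ) {i : ι}
    (hi : i ∈ s) :
    (derivative (∏ j ∈ s, (X - C (a j)))).eval (a i) = ∏ j ∈ s.erase i, (a i - a j) := by
  rw [← Finset.mul_prod_erase s (fun j => X - C (a j)) hi, derivative_mul, eval_add, eval_mul,
    eval_mul]
  simp [Polynomial.eval_prod]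

theorem minpoly_map {β : M} (hk : IsIntegral k β) (htop : IntermediateField.adjoin k {β} = ⊤)
    (hcard : ∀ σ : k →ₐ[ℚ] ℂ, (cl (M := M) σ).card = finrank k M) (σ : k →ₐ[ℚ] ℂ) :
    (minpoly k β).map (σ : k →+* ℂ) = ∏ τ ∈ cl (M := M) σ, (X - C (τ β)) := by
  classical
  have hmon : ((minpoly k β).map (σ : k →+* ℂ)).Monic := (minpoly.monic hk).map _
  have hdeg : (minpoly k β).natDegree = finrank k M := by
    rw [← IntermediateField.adjoin.finrank hk, htop]
    exact IntermediateField.finrank_top'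
  have hdvd : (∏ τ ∈ cl (M := M) σ, (X - C (τ β))) ∣ (minpoly k β).map (σ : k →+* ℂ) := by
    refine Finset.prod_dvd_of_coprime ?_ ?_
    · intro τ hτ τ' hτ' hne
      refine Polynomial.isCoprime_X_sub_C_of_isUnit_sub ?_
      rw [isUnit_iff_ne_zero, sub_ne_zero]
      intro h
      exact hne (inj hk htop hτ hτ' h)
    · intro τ hτ
      rw [Polynomial.dvd_iff_isRoot, IsRoot.def, ← map_aeval hτ, minpoly.aeval, map_zero]
  have hm2 : (∏ τ ∈ cl (M := M) σ, (X - C (τ β))).Monic :=
    monic_prod_of_monic _ _ fun τ _ => monic_X_sub_C _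
  refine Polynomial.eq_of_monic_of_dvd_of_natDegree_le hm2 hmon hdvd ?_
  rw [natDegree_map, hdeg, natDegree_prod_of_monic _ _ fun τ _ => monic_X_sub_C _]
  simp [hcard]

/-- the different -/
theorem map_diff {β : M} (hk : IsIntegral k β) (htop : IntermediateField.adjoin k {β} = ⊤)
    (hcard : ∀ σ : k →ₐ[ℚ] ℂ, (cl (M := M) σ).card = finrank k M) {σ : k →ₐ[ℚ] ℂ}
    {τ : M →ₐ[ℚ] ℂ} (hτ : τ ∈ cl (M := M) σ) [DecidableEq (M →ₐ[ℚ] ℂ)] :
    τ (aeval β (derivative (minpoly k β))) = ∏ τ' ∈ (cl (M := M) σ).erase τ, (τ β - τ' β) := by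
  rw [map_aeval hτ, ← Polynomial.derivative_map, minpoly_map hk htop hcard]
  exact eval_derivative_prod (cl (M := M) σ) (fun τ' => τ' β) hτ

theorem diff_integral {β : M} (hβ : IsIntegral ℤ β) :
    IsIntegral ℤ (aeval β (derivative (minpoly k β))) := by
  have h1 : IsIntegral (NumberField.RingOfIntegers k) β := hβ.tower_top
  have h2 := minpoly.isIntegrallyClosed_eq_field_fractions' k h1
  rw [h2, Polynomial.derivative_map, Polynomial.aeval_map_algebraMap]
  have h3 : IsIntegral (NumberField.RingOfIntegers k)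
      (aeval β (derivative (minpoly (NumberField.RingOfIntegers k) β))) :=
    adjoin_le_integralClosure h1 (Polynomial.aeval_mem_adjoin_singleton _ _)
  exact isIntegral_trans _ h3

end

theorem nrm (hC : S_CARD) : S_NRM := by
  intro k M _ _ _ _ _ β hβ htop
  classical
  have hk : IsIntegral k β := hβ.tower_top
  refine ⟨fun σ τ hτ τ' hτ' h => inj hk htop hτ hτ' h, ?_⟩
  obtain ⟨hcard, hsum⟩ := hC k M
  obtain ⟨w, hw⟩ : ∃ w, w = aeval β (derivative (minpoly k β)) := ⟨_, rfl⟩
  have hw0 : w ≠ 0 := by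
    rw [hw]
    exact ((minpoly.irreducible hk).separable).aeval_derivative_ne_zero (minpoly.aeval k β)
  have hwi : IsIntegral ℤ w := by
    rw [hw]
    exact diff_integral hβ
  have h1 := Pool.Agent.H388SL.one_le_prod_norm hwi hw0
  have h2 : 0 ≤ ∑ τ : M →ₐ[ℚ] ℂ, Real.log ‖τ w‖ := by
    rw [← Real.log_prod]
    · exact Real.log_nonneg h1
    · intro τ _ h0
      rw [norm_eq_zero, map_eq_zero] at h0
      exact hw0 h0
  rw [← hsum] at h2
  refine h2.trans (le_of_eq ?_)
  refine Finset.sum_congr rfl fun σ _ => Finset.sum_congr rfl fun τ hτ => ?_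
  rw [hw, map_diff hk htop hcard hτ, norm_prod, Real.log_prod]
  · rw [← Finset.add_sum_erase _ _ hτ, if_pos rfl, zero_add]
    refine Finset.sum_congr rfl fun τ' hτ' => ?_
    rw [if_neg (Finset.ne_of_mem_erase hτ').symm]
  · intro τ' hτ' h0
    rw [norm_eq_zero, sub_eq_zero] at h0
    exact (Finset.ne_of_mem_erase hτ').symm (inj hk htop hτ (Finset.mem_of_mem_erase hτ') h0)

end Pool.Agent.P8H4.SP
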